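import Pool.Agent.W64.DM.Stm

/-!
DM-TT: the hypothesis of CNT for good pairs.
-/

set_option autoImplicit false

namespace Pool.Agent.W154.DM.TT

open Pool.Agent.W64.DM

theorem rad_pos {d R : ℕ} (hR : 1 ≤ R) (a : Fin d → ℕ) (b : ℕ) : 0 < rad d R a b := by
  unfold rad
  have : (0 : ℝ) < R := by exact_mod_cast hR
  positivity

/-- arithmetic of the common denominators -/
theorem common {R p p' : ℕ} (hR : 1 ≤ R) (hp : 1 ≤ p) (hp' : 1 ≤ p') (hlt : p < 2 ^ (2 * R))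
    (hlt' : p' < 2 ^ (2 * R)) (hc : Nat.Coprime p p') {k k' : ℕ} (hk : 3 * R ≤ k)
    (hk' : 3 * R ≤ k') {s : ℝ} (h1 : nn (p' * s) < 1 / (2 : ℝ) ^ k)
    (h2 : nn (p * s) < 1 / (2 : ℝ) ^ k') :
    nn s < 1 / ((2 : ℝ) ^ k * p') ∧ nn s < 1 / ((2 : ℝ) ^ k' * p) := by
  unfold nn at h1 h2
  set z' : ℤ := round ((p' : ℝ) * s) with hz'
  set z : ℤ := round ((p : ℝ) * s) with hz
  have hpR : (0 : ℝ) < p := by exact_mod_cast hp
  have hpR' : (0 : ℝ) < p' := by exact_mod_cast hp'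
  have hb : (p' : ℝ) < 2 ^ (2 * R) := by exact_mod_cast hlt'
  have hb2 : (p : ℝ) < 2 ^ (2 * R) := by exact_mod_cast hlt
  have h3R : ∀ k : ℕ, 3 * R ≤ k → 1 / (2 : ℝ) ^ k ≤ 1 / (2 : ℝ) ^ (3 * R) := by
    intro k hk
    apply one_div_le_one_div_of_le (by positivity)
    exact pow_le_pow_right₀ (by norm_num) hk
  have hhalf : (2 : ℝ) ^ (2 * R) * (1 / (2 : ℝ) ^ (3 * R)) ≤ 1 / 2 := by
    have e : (2 : ℝ) ^ (3 * R) = 2 ^ (2 * R) * 2 ^ R := by
      rw [← pow_add]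
      congr 1
      omega
    rw [e]
    have h2R : (2 : ℝ) ≤ 2 ^ R := by
      calc (2 : ℝ) = 2 ^ 1 := (pow_one _).symm
        _ ≤ 2 ^ R := pow_le_pow_right₀ (by norm_num) hR
    have h0 : (0 : ℝ) < 2 ^ (2 * R) := by positivity
    have e2 : (2 : ℝ) ^ (2 * R) * (1 / (2 ^ (2 * R) * 2 ^ R)) = 1 / 2 ^ R := by
      field_simp
    rw [e2]
    exact one_div_le_one_div_of_le (by norm_num) h2R
  have h1' : |(p' : ℝ) * s - z'| < 1 / (2 : ℝ) ^ (3 * R) := h1.trans_le (h3R k hk)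
  have h2' : |(p : ℝ) * s - z| < 1 / (2 : ℝ) ^ (3 * R) := h2.trans_le (h3R k' hk')
  have hq : (0 : ℝ) < 1 / (2 : ℝ) ^ (3 * R) := by positivity
  have hA : (p : ℝ) * |(p' : ℝ) * s - z'| < 1 / 2 := by
    calc (p : ℝ) * |(p' : ℝ) * s - z'| < p * (1 / (2 : ℝ) ^ (3 * R)) :=
          mul_lt_mul_of_pos_left h1' hpR
      _ ≤ 2 ^ (2 * R) * (1 / (2 : ℝ) ^ (3 * R)) := mul_le_mul_of_nonneg_right hb2.le hq.le
      _ ≤ 1 / 2 := hhalf
  have hB : (p' : ℝ) * |(p : ℝ) * s - z| < 1 / 2 := by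
    calc (p' : ℝ) * |(p : ℝ) * s - z| < p' * (1 / (2 : ℝ) ^ (3 * R)) :=
          mul_lt_mul_of_pos_left h2' hpR'
      _ ≤ 2 ^ (2 * R) * (1 / (2 : ℝ) ^ (3 * R)) := mul_le_mul_of_nonneg_right hb.le hq.le
      _ ≤ 1 / 2 := hhalf
  have hint : |((p * z' - p' * z : ℤ) : ℝ)| < 1 := by
    have e : ((p * z' - p' * z : ℤ) : ℝ) =
        p' * ((p : ℝ) * s - z) - p * ((p' : ℝ) * s - z') := by
      push_cast
      ring
    rw [e]
    calc |(p' : ℝ) * ((p : ℝ) * s - z) - p * ((p' : ℝ) * s - z')|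
        ≤ |(p' : ℝ) * ((p : ℝ) * s - z)| + |(p : ℝ) * ((p' : ℝ) * s - z')| := abs_sub _ _
      _ = (p' : ℝ) * |(p : ℝ) * s - z| + (p : ℝ) * |(p' : ℝ) * s - z'| := by
          rw [abs_mul, abs_mul, abs_of_pos hpR, abs_of_pos hpR']
      _ < 1 := by linarith
  have hint2 : (p : ℤ) * z' - p' * z = 0 := by
    have : |(p : ℤ) * z' - p' * z| < 1 := by exact_mod_cast hint
    exact Int.abs_lt_one_iff.1 this
  have hdiv : (p : ℤ) ∣ z := by
    have hcz : IsCoprime (p : ℤ) (p' : ℤ) := Nat.isCoprime_iff_coprime.2 hc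
    exact hcz.dvd_of_dvd_mul_left (⟨z', by linarith⟩ : (p : ℤ) ∣ (p' : ℤ) * z)
  obtain ⟨y, hy⟩ := hdiv
  have hz'y : z' = p' * y := by
    have hp0 : (p : ℤ) ≠ 0 := by exact_mod_cast (by omega : p ≠ 0)
    apply mul_left_cancel₀ hp0
    rw [hy] at hint2
    linarith
  have hyr : nn s ≤ |s - y| := round_le s y
  constructor
  · have e : |(p' : ℝ) * s - z'| = p' * |s - y| := by
      rw [hz'y]
      push_cast
      rw [← mul_sub, abs_mul, abs_of_pos hpR']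
    rw [e] at h1
    refine hyr.trans_lt ?_
    rw [lt_div_iff₀ (by positivity)]
    rw [lt_div_iff₀ (by positivity)] at h1
    calc |s - y| * (2 ^ k * p') = p' * |s - y| * 2 ^ k := by ring
      _ < 1 := h1
  · have e : |(p : ℝ) * s - z| = p * |s - y| := by
      rw [hy]
      push_cast
      rw [← mul_sub, abs_mul, abs_of_pos hpR]
    rw [e] at h2
    refine hyr.trans_lt ?_
    rw [lt_div_iff₀ (by positivity)]
    rw [lt_div_iff₀ (by positivity)] at h2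
    calc |s - y| * (2 ^ k' * p) = p * |s - y| * 2 ^ k' := by ring
      _ < 1 := h2

/-- the constant -/
theorem bound {d R : ℕ} (hR : 1 ≤ R) (a : Fin d → ℕ) (b : ℕ) (x : ℝ)
    (h : x * rad d R a b ≤ 1) :
    x ≤ (((4 * d + 2 : ℝ) * 2) ^ (d + 1)) * (R : ℝ) ^ (d + 1) * 2 ^ (∑ i, a i + b) := by
  have hR0 : (0 : ℝ) < R := by exact_mod_cast hR
  unfold rad at h
  have hpos : (0 : ℝ) < ((4 * d + 2 : ℝ) * R) ^ (d + 1) * 2 ^ (∑ i, a i + b + (d + 1)) := by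
    positivity
  rw [mul_one_div, div_le_one hpos] at h
  refine h.trans (le_of_eq ?_)
  rw [pow_add 2 (∑ i, a i + b) (d + 1), mul_pow, mul_pow]
  ring

theorem main : S_NOT → S_TT := by
  intro hN d α c0 hd hNA
  obtain ⟨R0, hR0⟩ := hN d α c0 (((4 * d + 2 : ℝ) * 2) ^ (d + 1)) hd hNA
  refine ⟨max R0 1, ?_⟩
  intro R hR a a' b b' g p p' t ha ha' hb1 hb2 hb1' hb2' hg1 hg2 hg1' hg2' hcop hg ht hle
  have hR1 : 1 ≤ R := (le_max_right _ _).trans hR
  have hRR : R0 ≤ R := (le_max_left _ _).trans hR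
  have hgp : 0 < g * p := lt_of_lt_of_le (by positivity) hg1
  have hgp' : 0 < g * p' := lt_of_lt_of_le (by positivity) hg1'
  have hg0 : 1 ≤ g := Nat.pos_of_mul_pos_right hgp |> fun h => by
    rcases Nat.eq_zero_or_pos g with h0 | h0
    · rw [h0] at hgp
      omega
    · exact h0
  have hp : 1 ≤ p := by
    rcases Nat.eq_zero_or_pos p with h0 | h0
    · rw [h0] at hgp
      omega
    · exact h0
  have hp' : 1 ≤ p' := by
    rcases Nat.eq_zero_or_pos p' with h0 | h0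
    · rw [h0] at hgp'
      omega
    · exact h0
  have hlt : p < 2 ^ (2 * R) := by
    calc p ≤ g * p := Nat.le_mul_of_pos_left _ hg0
      _ < 2 ^ (b + 1) := hg2
      _ ≤ 2 ^ (2 * R) := Nat.pow_le_pow_right (by norm_num) (by omega)
  have hlt' : p' < 2 ^ (2 * R) := by
    calc p' ≤ g * p' := Nat.le_mul_of_pos_left _ hg0
      _ < 2 ^ (b' + 1) := hg2'
      _ ≤ 2 ^ (2 * R) := Nat.pow_le_pow_right (by norm_num) (by omega)
  by_contra hno
  push Not at hno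
  have hsmall : ∀ i, nn (t * α i) < 1 / ((2 : ℝ) ^ a i * p') ∧
      nn (t * α i) < 1 / ((2 : ℝ) ^ a' i * p) := by
    intro i
    obtain ⟨h1, h2⟩ := hno i
    refine common hR1 hp hp' hlt hlt' hcop (ha i).1 (ha' i).1 ?_ ?_
    · rw [show (p' : ℝ) * (t * α i) = t * (p' * α i) by ring]
      exact h1
    · rw [show (p : ℝ) * (t * α i) = t * (p * α i) by ring]
      exact h2
  have hr1 := rad_pos hR1 a b
  have hr2 := rad_pos hR1 a' b'
  have ht0 : (0 : ℝ) ≤ t := Nat.cast_nonneg _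
  have hpR : (0 : ℝ) ≤ p := Nat.cast_nonneg _
  have hpR' : (0 : ℝ) ≤ p' := Nat.cast_nonneg _
  rcases le_total p p' with hpp | hpp
  · have q1 : 2 ^ R ≤ p' * 2 ^ (R / 4) := by
      calc 2 ^ R ≤ 2 ^ b' := Nat.pow_le_pow_right (by norm_num) hb1'
        _ ≤ g * p' := hg1'
        _ ≤ 2 ^ (R / 4) * p' := Nat.mul_le_mul_right _ hg
        _ = p' * 2 ^ (R / 4) := mul_comm _ _
    have q2 : 2 ^ b ≤ p' * 2 ^ (R / 4) := by
      calc 2 ^ b ≤ g * p := hg1
        _ ≤ g * p' := Nat.mul_le_mul_left _ hpp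
        _ ≤ 2 ^ (R / 4) * p' := Nat.mul_le_mul_right _ hg
        _ = p' * 2 ^ (R / 4) := mul_comm _ _
    have q3 : (t : ℝ) * p' ≤ (((4 * d + 2 : ℝ) * 2) ^ (d + 1)) * (R : ℝ) ^ (d + 1) *
        2 ^ (∑ i, a i + b) := by
      apply bound hR1
      calc (t : ℝ) * p' * rad d R a b
          ≤ (t : ℝ) * (p' * rad d R a b + p * rad d R a' b') := by
            rw [mul_assoc]
            apply mul_le_mul_of_nonneg_left _ ht0
            have := mul_nonneg hpR hr2.le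
            linarith
        _ ≤ 1 := hle
    obtain ⟨i, hi⟩ := hR0 R hRR a b p' t ha hb2 hlt' q1 q2 ht q3
    exact absurd (hsmall i).1 (not_lt.2 hi)
  · have q1 : 2 ^ R ≤ p * 2 ^ (R / 4) := by
      calc 2 ^ R ≤ 2 ^ b := Nat.pow_le_pow_right (by norm_num) hb1
        _ ≤ g * p := hg1
        _ ≤ 2 ^ (R / 4) * p := Nat.mul_le_mul_right _ hg
        _ = p * 2 ^ (R / 4) := mul_comm _ _
    have q2 : 2 ^ b' ≤ p * 2 ^ (R / 4) := by
      calc 2 ^ b' ≤ g * p' := hg1'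
        _ ≤ g * p := Nat.mul_le_mul_left _ hpp
        _ ≤ 2 ^ (R / 4) * p := Nat.mul_le_mul_right _ hg
        _ = p * 2 ^ (R / 4) := mul_comm _ _
    have q3 : (t : ℝ) * p ≤ (((4 * d + 2 : ℝ) * 2) ^ (d + 1)) * (R : ℝ) ^ (d + 1) *
        2 ^ (∑ i, a' i + b') := by
      apply bound hR1
      calc (t : ℝ) * p * rad d R a' b'
          ≤ (t : ℝ) * (p' * rad d R a b + p * rad d R a' b') := by
            rw [mul_assoc]
            apply mul_le_mul_of_nonneg_left _ ht0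
            have := mul_nonneg hpR' hr1.le
            linarith
        _ ≤ 1 := hle
    obtain ⟨i, hi⟩ := hR0 R hRR a' b' p t ha' hb2' hlt q1 q2 ht q3
    exact absurd (hsmall i).2 (not_lt.2 hi)

end Pool.Agent.W154.DM.TT
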